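import Pool.Agent.helper53.PV.SpecD

/-!
# Project pv, row pvd:DMS
-/

set_option autoImplicit false

open scoped Topology
open MeasureTheory Filter

namespace Pool.Agent.PV

open Pool.Agent.CZ

theorem DMS (hFRL : FRL_stmt) (hFDE : FDE_stmt) (hFSW : FSW_stmt) (hFID : FID_stmt) : DMS_stmt := by
  intro X₀ Y _ _ _ _ _ _ _ α₀ x₀ f _ hf hap
  obtain ⟨h1, h2, h3, h4, h5, h6⟩ := hFRL X₀ Y α₀ x₀ f
  obtain ⟨i1, i2, i3, i4, i5, i6, i7, i8⟩ := hFID X₀ Y α₀ x₀ f
  refine { iso := ?_, ran := ?_, sca := ?_, ce := ?_, cr := ?_, er := ?_, eo := ?_, dense := ?_ }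
  · intro g
    apply le_antisymm
    · refine (ContinuousMap.norm_le _ (norm_nonneg _)).2 fun p => ?_
      exact g.norm_coe_le_norm (ePr α₀ x₀ f p)
    · refine (ContinuousMap.norm_le _ (norm_nonneg _)).2 fun x => ?_
      have h := (pbC ℂ (ePr α₀ x₀ f) g).norm_coe_le_norm (eSec α₀ x₀ f x)
      have e : (pbC ℂ (ePr α₀ x₀ f) g) (eSec α₀ x₀ f x) = g x := by
        change g (ePr α₀ x₀ f (eSec α₀ x₀ f x)) = g x
        rw [i1]
      rw [e] at h
      exact h
  · intro c hc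
    obtain ⟨g₀, hg₀⟩ := hFDE X₀ Y α₀ x₀ f hf hap ℂ c (by
      intro k y y'
      obtain ⟨z, hz⟩ := hc k
      have a1 := congrArg (fun h : C(Y, ℂ) => h y) hz
      have a2 := congrArg (fun h : C(Y, ℂ) => h y') hz
      have a1' : c (eIn α₀ x₀ f k y) = z := a1
      have a2' : c (eIn α₀ x₀ f k y') = z := a2
      rw [a1', a2'])
    refine ⟨g₀, ?_⟩
    apply ContinuousMap.ext
    intro p
    exact (hg₀ p).symm
  · intro k g
    exact ⟨_, h3 k g⟩
  · intro k
    exact ContinuousMap.continuous_precomp (eIn α₀ x₀ f k)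
  · intro k
    exact ContinuousMap.continuous_precomp (eEv α₀ x₀ f k)
  · intro k d
    exact h1 k d
  · intro i k hik d
    exact ⟨_, h2 i k d hik⟩
  · intro c
    rw [Metric.mem_closure_iff]
    intro ε hε
    obtain ⟨S, g', hS, hg'⟩ := hFSW X₀ Y α₀ x₀ f hf c (ε / 2) (by positivity)
    refine ⟨g', ⟨S, fun k hk => ?_⟩, ?_⟩
    · obtain ⟨y0⟩ := ‹Nonempty Y›
      refine ⟨g' (eIn α₀ x₀ f k y0), ?_⟩
      apply ContinuousMap.ext
      intro y
      exact hS k hk y y0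
    · rw [dist_eq_norm]
      have : ‖c - g'‖ ≤ ε / 2 := (ContinuousMap.norm_le _ (by positivity)).2 fun p => hg' p
      linarith

end Pool.Agent.PV
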