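import Pool.Agent.helper53.PV.SpecD

/-!
# Project pv, row pvd:DXD
-/

set_option autoImplicit false

open scoped Topology
open MeasureTheory Filter

namespace Pool.Agent.PV

open Pool.Agent.CZ

theorem DXD (hFAP : FAP_stmt) (hFOF : FOF_stmt) (hFID : FID_stmt) (hFFB : FFB_stmt) (hFRL : FRL_stmt) (hFAX : FAX_stmt) (hFBI : FBI_stmt) (hDMS : DMS_stmt) : DXD_stmt := by
  intro X₀ Y _ _ _ _ _ _ _ _ α₀ x₀ f _ hf hmin
  have hap : ∀ n : ℤ, n ≠ 0 → (α₀ ^ n) x₀ ≠ x₀ := fun n hn => hFAP X₀ α₀ hmin x₀ n hn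
  obtain ⟨h1, h2, h3, h4, h5, h6⟩ := hFRL X₀ Y α₀ x₀ f
  obtain ⟨i1, i2, i3, i4, i5, i6, i7, i8⟩ := hFID X₀ Y α₀ x₀ f
  obtain ⟨b1, b2, b3⟩ := hFBI X₀ Y α₀ x₀ f hf hap
  obtain ⟨f1, f2⟩ := hFFB X₀ Y α₀ x₀ f
  refine { sur := ?_, eqv := ?_, one := ?_, ms := ?_, pt := ?_, al := ?_, ea := ?_, apx := ?_, res := ?_, lift := ?_, inj := ?_ }
  · intro x
    exact ⟨eSec α₀ x₀ f x, i1 x⟩
  · exact i2
  · obtain ⟨x, -, hx⟩ := hFOF X₀ α₀ hmin x₀ Set.univ isOpen_univ ⟨x₀, Set.mem_univ _⟩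
    have hx' : ∀ k : ℤ, (α₀ ^ k) x ≠ x₀ := by
      intro k hk
      apply hx (-k)
      rw [← hk, zpow_zpow_apply, neg_add_cancel, zpow_zero]
      rfl
    refine ⟨x, fun p q hp hq => ?_⟩
    have e1 := f1 p (fun k => by rw [hp]; exact hx' k)
    have e2 := f1 q (fun k => by rw [hq]; exact hx' k)
    rw [e1, e2, hp, hq]
  · exact hDMS X₀ Y α₀ x₀ f hf hap
  · intro k
    exact ⟨eEv α₀ x₀ f k, fun ψ => rfl⟩
  · intro k ψ
    exact h4 k ψ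
  · intro k g
    apply ContinuousMap.ext
    intro y
    change g ((eHom α₀ x₀ f).symm (eIn α₀ x₀ f k y)) = g (eIn α₀ x₀ f (k + 1) y)
    congr 1
    rw [Homeomorph.symm_apply_eq]
    apply Subtype.ext
    apply Prod.ext
    · change (α₀ ^ (-k)) x₀ = α₀ ((α₀ ^ (-(k + 1))) x₀)
      have e : (-k : ℤ) = 1 + -(k + 1) := by ring
      rw [e, zpow_add, zpow_one]
      rfl
    · funext i
      change (if i = k then y else f ((α₀ ^ (i - k)) x₀)) = if i + 1 = k + 1 then y else f ((α₀ ^ (i + 1 - (k + 1))) x₀)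
      have e : i + 1 - (k + 1) = i - k := by ring
      rw [e]
      by_cases h : i = k
      · rw [if_pos h, if_pos (by rw [h])]
      · rw [if_neg h, if_neg (fun h' => h (by linarith))]
  · intro g ε hε
    obtain ⟨g₀, hg₀⟩ := hFAX X₀ Y α₀ x₀ f hf hap g ε hε
    refine ⟨g₀, fun φ => ?_⟩
    obtain ⟨φ₀, hφ₀⟩ := b2 φ
    rw [hφ₀ g₀]
    exact hg₀ φ.φ φ₀ φ.nonneg hφ₀
  · exact b2
  · exact b3
  · intro φ ψ h
    have e := b1 φ ψ h
    cases φ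
    cases ψ
    simp only at e
    subst e
    rfl

end Pool.Agent.PV
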