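import Pool.Agent.helper78.PV.FAP
import Pool.Agent.helper9.PV.FOF
import Pool.Agent.helper43.PV.FCL
import Pool.Agent.helper43.PV.FMZ
import Pool.Agent.helper43.PV.FID
import Pool.Agent.helper43.PV.FFB
import Pool.Agent.helper13.PV.FDN
import Pool.Agent.helper74.PV.FMI
import Pool.Agent.helper32.PV.FPA
import Pool.Agent.helper74.PV.FSQ
import Pool.Agent.helper78.PV.FDS
import Pool.Agent.helper17.PV.FTZ
import Pool.Agent.helper48.PV.FEA
import Pool.Agent.helper31.PV.FCP
import Pool.Agent.helper99.PV.FEB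
import Pool.Agent.helper43.PV.FRL
import Pool.Agent.helper30.PV.FDE
import Pool.Agent.helper55.PV.FSW
import Pool.Agent.helper48.PV.FNU
import Pool.Agent.helper83.PV.FAX
import Pool.Agent.helper80.PV.FEX
import Pool.Agent.helper89.PV.FBI
import Pool.Agent.helper80.PV.FRM
import Pool.Agent.helper78.PV.FNM
import Pool.Agent.helper41.PV.FSB
import Pool.Agent.helper53.PV.FSP
import Pool.Agent.helper48.PV.JCX
import Pool.Agent.helper8.PV.JST
import Pool.Agent.helper63.PV.JUN
import Pool.Agent.helper50.PV.JC0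
import Pool.Agent.helper31.PV.JTC
import Pool.Agent.helper63.PV.JTR
import Pool.Agent.helper65.PV.JPR
import Pool.Agent.helper74.PV.JNA
import Pool.Agent.helper65.PV.JIN
import Pool.Agent.helper65.PV.JCO
import Pool.Agent.helper73.PV.JKT
import Pool.Agent.helper27.PV.DZP
import Pool.Agent.helper83.PV.DFN
import Pool.Agent.helper27.PV.DZM
import Pool.Agent.helper53.PV.DMS
import Pool.Agent.helper53.PV.DXD
import Pool.Agent.helper53.PV.DXA
import Pool.Agent.helper53.PV.DXB
import Pool.Agent.helper3.PV.DKA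
import Pool.Agent.helper73.PV.DTB
import Pool.Agent.helper78.PV.LEV
import Pool.Agent.helper25.PV.LFM
import Pool.Agent.helper25.PV.LPX
import Pool.Agent.helper25.PV.LSB
import Pool.Agent.helper29.PV.LEX
import Pool.Agent.helper25.PV.LUN
import Pool.Agent.helper25.PV.LCP
import Pool.Agent.helper46.CZ.CEX
import Pool.Agent.helper79.CZ.TV1
import Pool.Agent.helper27.CZ.POS
import Pool.Agent.helper46.CZ.COE

/-!
# Project pv (MP_376aaf_an), blocks D, F, J, L: all rows (assembly)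

The rows of `SpecF.lean` and `SpecD.lean`, proved in the imported files; here all hypotheses are discharged.
-/

set_option autoImplicit false

namespace Pool.Agent.PV

open Pool.Agent.CZ

theorem aFAP : FAP_stmt := FAP
theorem aFOF : FOF_stmt := FOF
theorem aFCL : FCL_stmt := FCL
theorem aFMZ : FMZ_stmt := FMZ aFCL
theorem aFID : FID_stmt := FID
theorem aFFB : FFB_stmt := FFB
theorem aFDN : FDN_stmt := FDN aFID aFFB
theorem aFMI : FMI_stmt := FMI aFAP aFCL aFID aFFB aFDN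
theorem aFPA : FPA_stmt := FPA
theorem aFSQ : FSQ_stmt := FSQ aFOF
theorem aFDS : FDS_stmt := FDS
theorem aFTZ : FTZ_stmt := FTZ
theorem aFEA : FEA_stmt := FEA aFPA aFSQ aFDS aFTZ
theorem aFCP : FCP_stmt := FCP
theorem aFEB : FEB_stmt := FEB aFOF aFDS aFCP
theorem aFRL : FRL_stmt := FRL aFID
theorem aFDE : FDE_stmt := FDE aFCL aFID aFFB
theorem aFSW : FSW_stmt := FSW aFCL aFID
theorem aFNU : FNU_stmt := FNU
theorem aFAX : FAX_stmt := FAX aFNU aFSW aFDE aFID
theorem aFEX : FEX_stmt := FEX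
theorem aFBI : FBI_stmt := FBI aFCL aFID aFAX aFEX
theorem aFRM : FRM_stmt := FRM
theorem aFNM : FNM_stmt := FNM aFID
theorem aFSB : FSB_stmt := FSB
theorem aFSP : FSP_stmt := FSP aFAP aFNM aFSB
theorem aJCX : JCX_stmt := JCX
theorem aJST : JST_stmt := JST
theorem aJUN : JUN_stmt := JUN (Pool.Agent.CZ.TV1 Pool.Agent.CZ.CEX) Pool.Agent.CZ.POS aJCX
theorem aJC0 : JC0_stmt := JC0 Pool.Agent.CZ.CEX
theorem aJTC : JTC_stmt := JTC Pool.Agent.CZ.CEX aJCX
theorem aJTR : JTR_stmt := JTR aJCX aJC0 aJTC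
theorem aJPR : JPR_stmt := JPR aJCX
theorem aJNA : JNA_stmt := JNA
theorem aJIN : JIN_stmt := JIN
theorem aJCO : JCO_stmt := JCO aJNA aJIN
theorem aJKT : JKT_stmt := JKT aJST aJUN aJTR aJCX
theorem aDZP : DZP_stmt := DZP
theorem aDFN : DFN_stmt := DFN
theorem aDZM : DZM_stmt := DZM
theorem aDMS : DMS_stmt := DMS aFRL aFDE aFSW aFID
theorem aDXD : DXD_stmt := DXD aFAP aFOF aFID aFFB aFRL aFAX aFBI aDMS
theorem aDXA : DXA_stmt := DXA aFMZ aFMI aFEA aDXD
theorem aDXB : DXB_stmt := DXB aFMZ aFMI aFEB aFSP aDXD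
theorem aDKA : DKA_stmt := DKA
theorem aDTB : DTB_stmt := DTB aJST aJUN aJTR aJCX
theorem aLEV : LEV_stmt := LEV
theorem aLFM : LFM_stmt := LFM
theorem aLPX : LPX_stmt := LPX
theorem aLSB : LSB_stmt := LSB aLEV
theorem aLEX : LEX_stmt := LEX
theorem aLUN : LUN_stmt := LUN aLEV aLEX
theorem aLCP : LCP_stmt := LCP aLFM aLPX aLSB aLUN
theorem DF_COE : COE_stmt := Pool.Agent.CZ.COE

end Pool.Agent.PV
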