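import Pool.Agent.helper53.PV.DefsF
import Pool.Agent.helper77.PV.Iface

/-!
# Project pv (MP_376aaf_an), blocks D, J, L: definitions (trace on `K₀` of a commutative ring, data of the extension)
-/

set_option autoImplicit false

open scoped Topology
open MeasureTheory Filter

namespace Pool.Agent.PV

open Pool.Agent.CZ

/-- the trace `K₀(R) → R`, `[e] ↦ ∑ e_ii`, of a commutative ring -/
noncomputable def trC (R : Type) [CommRing R] : K0 R →+ R :=
  QuotientAddGroup.lift _ (FreeAbelianGroup.lift (fun p : IdemMat R => ∑ i, p.e i i)) (by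
    rw [AddSubgroup.closure_le]
    rintro z (⟨p, q, ⟨x, y, h1, h2⟩, rfl⟩ | ⟨n, e, f, he, hf, hs, -, -, rfl⟩)
    · change (FreeAbelianGroup.lift (fun p : IdemMat R => ∑ i, p.e i i)) _ = 0
      rw [map_sub, FreeAbelianGroup.lift_apply_of, FreeAbelianGroup.lift_apply_of, ← h1, ← h2, sub_eq_zero]
      simp only [Matrix.mul_apply]
      rw [Finset.sum_comm]
      exact Finset.sum_congr rfl fun i _ => Finset.sum_congr rfl fun j _ => mul_comm _ _
    · change (FreeAbelianGroup.lift (fun p : IdemMat R => ∑ i, p.e i i)) _ = 0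
      rw [map_sub, map_sub, FreeAbelianGroup.lift_apply_of, FreeAbelianGroup.lift_apply_of,
        FreeAbelianGroup.lift_apply_of]
      simp only [Matrix.add_apply, Finset.sum_add_distrib]
      ring)

theorem trC_cls {R : Type} [CommRing R] (p : IdemMat R) : trC R (cls p) = ∑ i, p.e i i := by
  change (FreeAbelianGroup.lift (fun p : IdemMat R => ∑ i, p.e i i)) (FreeAbelianGroup.of p) = _
  rw [FreeAbelianGroup.lift_apply_of]

/-- an almost one-to-one extension `π : (X, α) → (X₀, α₀)`; `e k` = restriction of functions to the `k`-th exceptional fibre `Y`,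
`r k` = pull-back along a map `X → Y`; the invariant states of `α` and of `α₀` correspond to each other -/
structure ExtData {X₀ Y X : Type} [TopologicalSpace X₀] [TopologicalSpace Y] [TopologicalSpace X] [CompactSpace X₀]
    [CompactSpace Y] [CompactSpace X] (α₀ : X₀ ≃ₜ X₀) (α : X ≃ₜ X) (π : C(X, X₀)) (e : ℤ → C(X, ℂ) →ₐ[ℂ] C(Y, ℂ))
    (r : ℤ → C(Y, ℂ) →ₐ[ℂ] C(X, ℂ)) : Prop where
  sur : Function.Surjective π
  eqv : ∀ x, π (α x) = α₀ (π x)
  one : ∃ x : X₀, ∀ p q : X, π p = x → π q = x → p = q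
  ms : MSplit (pbC ℂ π) e r
  pt : ∀ k, ∃ η : C(X, Y), ∀ ψ, r k ψ = ψ.comp η
  al : ∀ k ψ, alC α (r k ψ) = r (k - 1) ψ
  ea : ∀ k g, e k (alC α g) = e (k + 1) g
  apx : ∀ (g : C(X, ℝ)) (ε : ℝ), 0 < ε → ∃ g₀ : C(X₀, ℝ), ∀ φ : InvSt α, |φ.φ g - φ.φ (g₀.comp π)| ≤ ε
  res : ∀ φ : InvSt α, ∃ φ₀ : InvSt α₀, ∀ k : C(X₀, ℝ), φ.φ (k.comp π) = φ₀.φ k
  lift : ∀ φ₀ : InvSt α₀, ∃ φ : InvSt α, ∀ k : C(X₀, ℝ), φ.φ (k.comp π) = φ₀.φ k
  inj : ∀ φ ψ : InvSt α, (∀ k : C(X₀, ℝ), φ.φ (k.comp π) = ψ.φ (k.comp π)) → φ = ψ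

end Pool.Agent.PV
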