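import Pool.Agent.helper77.PV.Base
import Pool.Agent.helper37.CZ.SpecD

/-!
# Project pv (MP_376aaf_an), block DF: definitions (invariant states, covariant pairs, the extension `X → X₀`)
-/

set_option autoImplicit false

open scoped Topology
open MeasureTheory Filter

namespace Pool.Agent.PV

open Pool.Agent.CZ

/-! ## Invariant states -/

/-- an invariant state of `C(X)` (an invariant probability measure) -/
structure InvSt {X : Type} [TopologicalSpace X] (α : X ≃ₜ X) where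
  φ : C(X, ℝ) →ₗ[ℝ] ℝ
  nonneg : ∀ f : C(X, ℝ), (∀ x, 0 ≤ f x) → 0 ≤ φ f
  one : φ 1 = 1
  inv : ∀ f : C(X, ℝ), φ (f.comp (α : C(X, X))) = φ f

/-- real part -/
noncomputable def reC {X : Type} [TopologicalSpace X] (f : C(X, ℂ)) : C(X, ℝ) :=
  ⟨fun x => (f x).re, Complex.continuous_re.comp f.continuous⟩

/-- imaginary part -/
noncomputable def imC {X : Type} [TopologicalSpace X] (f : C(X, ℂ)) : C(X, ℝ) :=
  ⟨fun x => (f x).im, Complex.continuous_im.comp f.continuous⟩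

/-- the values of the state on complex functions -/
noncomputable def InvSt.cx {X : Type} [TopologicalSpace X] {α : X ≃ₜ X} (φ : InvSt α) (f : C(X, ℂ)) : ℂ :=
  ⟨φ.φ (reC f), φ.φ (imC f)⟩

/-- the small boundary property -/
def SmallBdry {X : Type} [TopologicalSpace X] (α : X ≃ₜ X) : Prop :=
  ∀ (x : X) (U : Set X), U ∈ 𝓝 x → ∃ V : Set X, IsOpen V ∧ x ∈ V ∧ V ⊆ U ∧
    ∀ [MeasurableSpace X] [BorelSpace X] (μ : Measure X), IsProbabilityMeasure μ → μ.map α = μ →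
      μ (frontier V) = 0

/-! ## Covariant pairs -/

/-- a covariant pair in a unital C*-algebra -/
structure CovPair {X : Type} [TopologicalSpace X] [CompactSpace X] (α : X ≃ₜ X) (B : Type)
    [CStarAlgebra B] where
  j : C(X, ℂ) →⋆ₐ[ℂ] B
  v : unitary B
  cov : ∀ f : C(X, ℂ), (v : B) * j f * star (v : B) = j (f.comp (α.symm : C(X, X)))

/-- the element `∑ j(F_n) v^n` -/
noncomputable def CovPair.ev {X : Type} [TopologicalSpace X] [CompactSpace X] {α : X ≃ₜ X} {B : Type}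
    [CStarAlgebra B] (p : CovPair α B) (F : ℤ →₀ C(X, ℂ)) : B :=
  F.sum fun n f => p.j f * up p.v n

/-! ## The extension -/

section ext

variable {X₀ Y : Type} [TopologicalSpace X₀] [TopologicalSpace Y]

/-- `f` is continuous off `x₀`, and arbitrarily close to `x₀`, off the orbit of `x₀`, it takes values
arbitrarily close to any given point of `Y` -/
structure EData (α₀ : X₀ ≃ₜ X₀) (x₀ : X₀) (f : X₀ → Y) : Prop where
  cont : ContinuousOn f {x₀}ᶜ
  dense : ∀ y : Y, ∀ U ∈ 𝓝 x₀, ∀ V ∈ 𝓝 y, ∃ x ∈ U, (∀ n : ℤ, (α₀ ^ n) x₀ ≠ x) ∧ f x ∈ V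

/-- the set `{(x, (y_k)) : for all k, α₀^k x = x₀ or y_k = f(α₀^k x)}` -/
def ESet (α₀ : X₀ ≃ₜ X₀) (x₀ : X₀) (f : X₀ → Y) : Set (X₀ × (ℤ → Y)) :=
  {p | ∀ k : ℤ, (α₀ ^ k) p.1 = x₀ ∨ p.2 k = f ((α₀ ^ k) p.1)}

/-- the extension of `X₀` -/
abbrev ESp (α₀ : X₀ ≃ₜ X₀) (x₀ : X₀) (f : X₀ → Y) : Type := ↥(ESet α₀ x₀ f)

theorem zpow_succ_apply (α₀ : X₀ ≃ₜ X₀) (k : ℤ) (x : X₀) : (α₀ ^ k) (α₀ x) = (α₀ ^ (k + 1)) x := by
  rw [zpow_add_one]
  rfl

theorem zpow_pred_apply (α₀ : X₀ ≃ₜ X₀) (k : ℤ) (x : X₀) :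
    (α₀ ^ k) (α₀.symm x) = (α₀ ^ (k - 1)) x := by
  rw [zpow_sub_one]
  rfl

theorem zpow_zpow_apply (α₀ : X₀ ≃ₜ X₀) (k l : ℤ) (x : X₀) :
    (α₀ ^ k) ((α₀ ^ l) x) = (α₀ ^ (k + l)) x := by
  rw [zpow_add]
  rfl

/-- the homeomorphism `(x, (y_k)) ↦ (α₀ x, (y_(k+1)))` -/
def eHom (α₀ : X₀ ≃ₜ X₀) (x₀ : X₀) (f : X₀ → Y) : ESp α₀ x₀ f ≃ₜ ESp α₀ x₀ f where
  toFun p := ⟨(α₀ p.1.1, fun k => p.1.2 (k + 1)), fun k => by
    have h := p.2 (k + 1)
    rw [← zpow_succ_apply] at h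
    exact h⟩
  invFun p := ⟨(α₀.symm p.1.1, fun k => p.1.2 (k - 1)), fun k => by
    have h := p.2 (k - 1)
    rw [← zpow_pred_apply] at h
    exact h⟩
  left_inv p := by
    apply Subtype.ext
    apply Prod.ext
    · exact α₀.symm_apply_apply _
    · funext k
      show p.1.2 (k - 1 + 1) = p.1.2 k
      rw [sub_add_cancel]
  right_inv p := by
    apply Subtype.ext
    apply Prod.ext
    · exact α₀.apply_symm_apply _
    · funext k
      show p.1.2 (k + 1 - 1) = p.1.2 k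
      rw [add_sub_cancel_right]
  continuous_toFun := by
    refine Continuous.subtype_mk (Continuous.prodMk ?_ ?_) _
    · exact α₀.continuous.comp (continuous_fst.comp continuous_subtype_val)
    · exact continuous_pi fun k => (continuous_apply (k + 1)).comp (continuous_snd.comp continuous_subtype_val)
  continuous_invFun := by
    refine Continuous.subtype_mk (Continuous.prodMk ?_ ?_) _
    · exact α₀.symm.continuous.comp (continuous_fst.comp continuous_subtype_val)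
    · exact continuous_pi fun k => (continuous_apply (k - 1)).comp (continuous_snd.comp continuous_subtype_val)

variable (α₀ : X₀ ≃ₜ X₀) (x₀ : X₀) (f : X₀ → Y)

/-- the projection to `X₀` -/
def ePr : C(ESp α₀ x₀ f, X₀) := ⟨fun p => p.1.1, continuous_fst.comp continuous_subtype_val⟩

/-- the coordinate `y_k` -/
def eEv (k : ℤ) : C(ESp α₀ x₀ f, Y) :=
  ⟨fun p => p.1.2 k, (continuous_apply k).comp (continuous_snd.comp continuous_subtype_val)⟩

/-- the inclusion of the fibre over `α₀^(-k) x₀` -/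
def eIn (k : ℤ) : C(Y, ESp α₀ x₀ f) :=
  ⟨fun y => ⟨((α₀ ^ (-k)) x₀, fun i => if i = k then y else f ((α₀ ^ (i - k)) x₀)), fun i => by
      show (α₀ ^ i) ((α₀ ^ (-k)) x₀) = x₀ ∨
        (if i = k then y else f ((α₀ ^ (i - k)) x₀)) = f ((α₀ ^ i) ((α₀ ^ (-k)) x₀))
      rw [zpow_zpow_apply]
      by_cases h : i = k
      · left
        rw [h, add_neg_cancel, zpow_zero]
        rfl
      · right
        rw [if_neg h, sub_eq_add_neg]⟩, by
    refine Continuous.subtype_mk (Continuous.prodMk continuous_const (continuous_pi fun i => ?_)) _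
    by_cases h : i = k
    · simp only [if_pos h]
      exact continuous_id
    · simp only [if_neg h]
      exact continuous_const⟩

/-- the section `x ↦ (x, (f(α₀^k x)))` of the projection (not continuous) -/
def eSec (x : X₀) : ESp α₀ x₀ f := ⟨(x, fun k => f ((α₀ ^ k) x)), fun _ => Or.inr rfl⟩

/-- restriction of functions to the fibre over `α₀^(-k) x₀` -/
noncomputable def eRes (k : ℤ) : C(ESp α₀ x₀ f, ℂ) →⋆ₐ[ℂ] C(Y, ℂ) :=
  ContinuousMap.compStarAlgHom' ℂ ℂ (eIn α₀ x₀ f k)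

/-- `ψ ↦ ψ(y_k)` -/
noncomputable def eLif (k : ℤ) : C(Y, ℂ) →⋆ₐ[ℂ] C(ESp α₀ x₀ f, ℂ) :=
  ContinuousMap.compStarAlgHom' ℂ ℂ (eEv α₀ x₀ f k)

/-- functions on `X₀` as functions on the extension -/
noncomputable def ePul : C(X₀, ℂ) →⋆ₐ[ℂ] C(ESp α₀ x₀ f, ℂ) :=
  ContinuousMap.compStarAlgHom' ℂ ℂ (ePr α₀ x₀ f)

/-- `f` is locally constant off `x₀` -/
def LocC (x₀ : X₀) (f : X₀ → Y) : Prop := ∀ x, x ≠ x₀ → ∀ᶠ x' in 𝓝 x, f x' = f x

end ext

end Pool.Agent.PV
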