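import Pool.Agent.helper53.PV.SpecF
import Pool.Agent.helper53.PV.DefsD

/-!
# Project pv (MP_376aaf_an), blocks D, J, L: crossed products by ℤ: states and traces, functoriality, existence. Rows `pvd:*`

RULES. One file per row: `Pool/Agent/<seat>/PV/XXX.lean`, `import Pool.Agent.helper53.PV.SpecD`, `namespace Pool.Agent.PV`,
`open Pool.Agent.CZ`, auxiliary lemmas prefixed `XXX_`. The exact theorem line is in the lock note (other rows enter only as hypotheses, no row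
waits for another). No straight double quotes, no `convert` / `congr!`, no `native_decide`. The proof of every row is in its docstring. Never change
this file; if a statement is wrong tell helper53 at once.

Notation (CZ = `Pool/Agent/helper37/CZ/{Defs,Spec,SpecD}.lean`): `up u n = u^n ∈ A`, `sh α n f = f ∘ α^n`, `Cov α ι u c` = covariance `u ι(f) u* = ι(f ∘ α⁻¹)`, density of the span of the monomials
`ι(f) u^n`, Fourier coefficients `c n : A → C(X)`, `‖c n a‖ ≤ ‖a‖`, `c m (ι(f) u^n) = f` if `m = n`, else 0. `InvSt α`: invariant states of `C(X, ℝ)`, `φ.cx` their values on complex functions. `CEX_stmt`, `TV1_stmt`, `POS_stmt`, `COE_stmt` are proved CZ rows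
(`u^n ι(f) = ι(f ∘ α^(-n)) u^n`; traces vanish on `ι(f) u^n`, `n ≠ 0`; traces are bounded; the coefficients exist).
-/

set_option autoImplicit false

open scoped Topology
open MeasureTheory Filter

namespace Pool.Agent.PV

open Pool.Agent.CZ

/-! ## J. Invariant states and tracial states -/

/-- ROW pvd:JCX (short-medium). Linearity over ℂ from linearity of `φ` over ℝ (`reC`, `imC`); invariance under `α^n`: induction on `n` in both directions; the norm: `-‖f‖ ≤ re f ≤ ‖f‖` pointwise, `|φ(re f)| ≤ ‖f‖`, the same for `im f`. -/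
def JCX_stmt : Prop := ∀ (X : Type) [TopologicalSpace X] [CompactSpace X] (α : X ≃ₜ X) (φ : InvSt α),
  (∀ f g, φ.cx (f + g) = φ.cx f + φ.cx g) ∧ (∀ (z : ℂ) f, φ.cx (z • f) = z * φ.cx f) ∧ φ.cx 1 = 1 ∧
  (∀ f : C(X, ℂ), (∀ x, 0 ≤ (f x).re ∧ (f x).im = 0) → 0 ≤ (φ.cx f).re ∧ (φ.cx f).im = 0) ∧
  (∀ (n : ℤ) f, φ.cx (sh α n f) = φ.cx f) ∧ (∀ f, ‖φ.cx f‖ ≤ 2 * ‖f‖) ∧ ∀ h : C(X, ℝ), φ.cx (rc h) = (φ.φ h : ℂ)

/-- ROW pvd:JST (medium). `φ(h) = re t(ι(rc h))`. For `h ≥ 0`: `rc h = star k * k`, `k = rc √h`, so `t(ι(rc h)) = t(star (ι k) * ι k)` is real and `≥ 0`. Every `h = h⁺ - h⁻`, so `t(ι(rc h))` is real for all real `h`; so `cx f = t(ι f)` (`f = rc (re f) + i rc (im f)`).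
Invariance: `t(ι(f ∘ α⁻¹)) = t(u ι(f) u*) = t(ι(f))`, apply it to `f = g ∘ α`. -/
def JST_stmt : Prop := ∀ (X : Type) [TopologicalSpace X] [CompactSpace X] (α : X ≃ₜ X) (A : Type) [CStarAlgebra A]
  (ι : C(X, ℂ) →⋆ₐ[ℂ] A) (u : unitary A), (∀ f : C(X, ℂ), (u : A) * ι f * star (u : A) = ι (f.comp (α.symm : C(X, X)))) →
  ∀ t : TracialState A, ∃ φ : InvSt α, ∀ f, φ.cx f = t.τ (ι f)

/-- ROW pvd:JUN (short-medium; from TV1, POS, JCX). Both sides are linear and continuous in `a` (POS; `‖cx g‖ ≤ 2‖g‖`, `‖c 0 a‖ ≤ ‖a‖`) and agree on the monomials `ι(f) u^n` (`n = 0`: hypothesis; `n ≠ 0`: TV1, `cval`), whose span is dense. -/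
def JUN_stmt : Prop := ∀ (X : Type) [TopologicalSpace X] [CompactSpace X] [T2Space X] [Infinite X] (α : X ≃ₜ X) (A : Type) [CStarAlgebra A]
  (ι : C(X, ℂ) →⋆ₐ[ℂ] A) (u : unitary A) (c : ℤ → A →ₗ[ℂ] C(X, ℂ)), Cov α ι u c → IsMinimal α →
  ∀ (t : TracialState A) (φ : InvSt α), (∀ f, φ.cx f = t.τ (ι f)) → ∀ a, t.τ a = φ.cx (c 0 a)

/-- ROW pvd:JC0 (medium; from CEX). For a finite sum `a = ∑ ι(f_k) u^k`: `star a * a = ∑_(k,l) u^(-k) ι(star f_k * f_l) u^l = ∑_(k,l) ι(sh α k (star f_k * f_l)) u^(l-k)` (CEX), so `c 0 (star a * a) = ∑_k sh α k (|f_k|²) ≥ 0`. The finite sums are dense, `a ↦ c 0 (star a * a) x` is continuous. -/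
def JC0_stmt : Prop := ∀ (X : Type) [TopologicalSpace X] [CompactSpace X] (α : X ≃ₜ X) (A : Type) [CStarAlgebra A]
  (ι : C(X, ℂ) →⋆ₐ[ℂ] A) (u : unitary A) (c : ℤ → A →ₗ[ℂ] C(X, ℂ)), Cov α ι u c →
  ∀ (a : A) (x : X), 0 ≤ (c 0 (star a * a) x).re ∧ (c 0 (star a * a) x).im = 0

/-- ROW pvd:JTC (medium; from CEX, JCX). Both sides are bilinear and continuous, so `a = ι(f) u^n`, `b = ι(g) u^m` (density twice). `a b = ι(f · sh α (-n) g) u^(n+m)`, `b a = ι(g · sh α (-m) f) u^(m+n)` (CEX). If `n + m ≠ 0` both sides are 0;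
if `m = -n`: `cx (f · sh α (-n) g) = cx (sh α n (f · sh α (-n) g)) = cx (sh α n f · g)`. -/
def JTC_stmt : Prop := ∀ (X : Type) [TopologicalSpace X] [CompactSpace X] (α : X ≃ₜ X) (A : Type) [CStarAlgebra A]
  (ι : C(X, ℂ) →⋆ₐ[ℂ] A) (u : unitary A) (c : ℤ → A →ₗ[ℂ] C(X, ℂ)), Cov α ι u c →
  ∀ (φ : InvSt α) (a b : A), φ.cx (c 0 (a * b)) = φ.cx (c 0 (b * a))

/-- ROW pvd:JTR (short; from JCX, JC0, JTC). `t.τ a = cx (c 0 a)`; `1 = ι(1) u^0`. -/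
def JTR_stmt : Prop := ∀ (X : Type) [TopologicalSpace X] [CompactSpace X] (α : X ≃ₜ X) (A : Type) [CStarAlgebra A]
  (ι : C(X, ℂ) →⋆ₐ[ℂ] A) (u : unitary A) (c : ℤ → A →ₗ[ℂ] C(X, ℂ)), Cov α ι u c →
  ∀ φ : InvSt α, ∃ t : TracialState A, ∀ a, t.τ a = φ.cx (c 0 a)

/-- ROW pvd:JPR (short; from JCX). Both sides are additive in `z`; for `z = cls p` they are `∑ t(ι(p_ii))` and `cx (∑ p_ii)` (`trC_cls`; `pair` and `k0map` compute on classes by `rfl` / `FreeAbelianGroup.lift_apply_of`). Every `z` is in the subgroup generated by the classes. -/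
def JPR_stmt : Prop := ∀ (X : Type) [TopologicalSpace X] [CompactSpace X] (α : X ≃ₜ X) (A : Type) [CStarAlgebra A]
  (ι : C(X, ℂ) →⋆ₐ[ℂ] A) (t : TracialState A) (φ : InvSt α), (∀ f, φ.cx f = t.τ (ι f)) →
  ∀ z : K0 C(X, ℂ), pair t (k0map ι.toAlgHom.toRingHom z) = φ.cx (trC C(X, ℂ) z)

/-- ROW pvd:JNA (short). Additive in `z`; on classes both sides are `∑ φ(e_ii)`. -/
def JNA_stmt : Prop := ∀ (R S : Type) [CommRing R] [CommRing S] (φ : R →+* S) (z : K0 R), trC S (k0map φ z) = φ (trC R z)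

/-- ROW pvd:JIN (short-medium). Additive in `z`; the trace of an idempotent complex matrix is its rank, a natural number (`LinearMap.IsIdempotentElem`..., `LinearMap.IsProj.trace`, `Matrix.toLin'`). -/
def JIN_stmt : Prop := ∀ (X : Type) [TopologicalSpace X] (z : K0 C(X, ℂ)) (x : X), ∃ n : ℤ, trC C(X, ℂ) z x = n

/-- ROW pvd:JCO (short-medium; from JNA, JIN). `trC z` is a continuous function with values in `ℤ` (a closed discrete subset of `ℂ`), so it is constant (`PreconnectedSpace.constant` for a locally constant function, or `IsPreconnected.constant_of_mapsTo`); its value at `y` is `trC ℂ (k0map (evC ℂ y) z) = 0`. -/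
def JCO_stmt : Prop := ∀ (Y : Type) [TopologicalSpace Y] [PreconnectedSpace Y] (y : Y) (z : K0 C(Y, ℂ)),
  k0map (evC ℂ y).toRingHom z = 0 → trC C(Y, ℂ) z = 0

/-- ROW pvd:JKT (short-medium; from JST, JUN, JTR, JCX). `τ t` from JTR. Injective: `(τ t).τ (ι f) = (φ t).cx f`, so `τ t` determines `(φ t).φ` (`cx (rc h) = φ h`). Onto: JST, JUN. The functions: `b t = (φ t).φ (re (c 0 a))`, `b' t = (φ t).φ (im (c 0 a))`. -/
def JKT_stmt : Prop := ∀ (X : Type) [TopologicalSpace X] [CompactSpace X] [T2Space X] [Infinite X] (α : X ≃ₜ X) (A : Type) [CStarAlgebra A]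
  (ι : C(X, ℂ) →⋆ₐ[ℂ] A) (u : unitary A) (c : ℤ → A →ₗ[ℂ] C(X, ℂ)), Cov α ι u c → IsMinimal α →
  ∀ (E : Type) [AddCommGroup E] [Module ℝ E] [TopologicalSpace E] (K : Set E) (φ : K → InvSt α), Function.Bijective φ →
  (∀ g : C(X, ℝ), ∃ a : C(K, ℝ), IsAff a ∧ ∀ t, a t = (φ t).φ g) →
  ∃ τ : K → TracialState A, Function.Bijective τ ∧ (∀ t a, (τ t).τ a = (φ t).cx (c 0 a)) ∧
    ∀ a : A, ∃ b b' : C(K, ℝ), IsAff b ∧ IsAff b' ∧ ∀ t, (τ t).τ a = ⟨b t, b' t⟩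

/-! ## D. Z-pairs, functoriality, the extension -/

/-- ROW pvd:DZP (short-medium). `io` is isometric: `‖f‖ = ‖c 0 (ι f u^0)‖ ≤ ‖ι f‖ ≤ ‖f‖` (star homomorphisms are contractive, `NonUnitalStarAlgHom.norm_apply_le`); `‖f ∘ α⁻¹‖ = ‖f‖`; unitaries have norm `≤ 1`; `u ι(f) = (u ι(f) u*) u`; density and coefficients are those of `Cov` (`up u n`, `Unitary.toUnits` is a homomorphism). -/
def DZP_stmt : Prop := ∀ (X : Type) [TopologicalSpace X] [CompactSpace X] (α : X ≃ₜ X) (A : Type) [CStarAlgebra A]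
  (ι : C(X, ℂ) →⋆ₐ[ℂ] A) (u : unitary A) (c : ℤ → A →ₗ[ℂ] C(X, ℂ)), Cov α ι u c → ZPair (alC α) ι.toAlgHom (Unitary.toUnits u) c

/-- ROW pvd:DFN (short-medium). The universal property of `A₀` for the pair `j(f) = ι(f ∘ π)`, `v = u` in `A` (`π ∘ α⁻¹ = α₀⁻¹ ∘ π`). The coefficients: both sides are linear and continuous in `x` (star homomorphisms are contractive) and agree on the monomials. -/
def DFN_stmt : Prop := ∀ (X X₀ : Type) [TopologicalSpace X] [CompactSpace X] [TopologicalSpace X₀] [CompactSpace X₀] (α : X ≃ₜ X) (α₀ : X₀ ≃ₜ X₀)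
  (π : C(X, X₀)), (∀ x, π (α x) = α₀ (π x)) → ∀ (A A₀ : Type) [CStarAlgebra A] [CStarAlgebra A₀]
  (ι : C(X, ℂ) →⋆ₐ[ℂ] A) (u : unitary A) (c : ℤ → A →ₗ[ℂ] C(X, ℂ)) (ι₀ : C(X₀, ℂ) →⋆ₐ[ℂ] A₀) (u₀ : unitary A₀) (c₀ : ℤ → A₀ →ₗ[ℂ] C(X₀, ℂ)),
  Cov α ι u c → Cov α₀ ι₀ u₀ c₀ → IsCrossedProduct α₀ ι₀ u₀ →
  ∃ Φ : A₀ →⋆ₐ[ℂ] A, (∀ f, Φ (ι₀ f) = ι (f.comp π)) ∧ Φ (u₀ : A₀) = u ∧ ∀ n x, c n (Φ x) = (c₀ n x).comp π

/-- ROW pvd:DZM (short). `alC α (f ∘ π) = (alC α₀ f) ∘ π`; composition with `π` and star homomorphisms are continuous. -/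
def DZM_stmt : Prop := ∀ (X X₀ : Type) [TopologicalSpace X] [CompactSpace X] [TopologicalSpace X₀] [CompactSpace X₀] (α : X ≃ₜ X) (α₀ : X₀ ≃ₜ X₀)
  (π : C(X, X₀)), (∀ x, π (α x) = α₀ (π x)) → ∀ (A A₀ : Type) [CStarAlgebra A] [CStarAlgebra A₀]
  (ι : C(X, ℂ) →⋆ₐ[ℂ] A) (u : unitary A) (ι₀ : C(X₀, ℂ) →⋆ₐ[ℂ] A₀) (u₀ : unitary A₀) (Φ : A₀ →⋆ₐ[ℂ] A),
  (∀ f, Φ (ι₀ f) = ι (f.comp π)) → Φ (u₀ : A₀) = u →
  ZMap (alC α₀) ι₀.toAlgHom (Unitary.toUnits u₀) (alC α) ι.toAlgHom (Unitary.toUnits u) (pbC ℂ π) Φ.toAlgHom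

/-- ROW pvd:DMS (short-medium; from FRL, FDE, FSW, FID). `iso`: `ePr` is onto (`eSec`); `ran`: FDE; `sca`, `er`, `eo`: FRL; `dense`: FSW (`e k c` is scalar iff `c` is constant on the fibre `k`; `‖g - g'‖ ≤ ε` from the pointwise bound); pull-backs are continuous. -/
def DMS_stmt : Prop := ∀ (X₀ Y : Type) [TopologicalSpace X₀] [TopologicalSpace Y] [CompactSpace X₀] [T2Space X₀] [CompactSpace Y] [T2Space Y] [Nonempty Y]
  (α₀ : X₀ ≃ₜ X₀) (x₀ : X₀) (f : X₀ → Y) [CompactSpace (ESp α₀ x₀ f)], ContinuousOn f {x₀}ᶜ → (∀ n : ℤ, n ≠ 0 → (α₀ ^ n) x₀ ≠ x₀) →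
  MSplit (pbC ℂ (ePr α₀ x₀ f)) (fun k => (eRes α₀ x₀ f k).toAlgHom) (fun k => (eLif α₀ x₀ f k).toAlgHom)

/-- ROW pvd:DXD (short-medium; from FAP, FOF, FID, FFB, FRL, FAX, FBI, DMS). `one`: a point `x` off the orbit of `x₀` (FOF), FFB. `pt`: `η = eEv k`. `al`: FRL. `ea`: `eHom⁻¹(eIn k y) = eIn (k+1) y`. `apx`: FAX twice (`φ₀` from FBI): `g₀ ∘ ePr` itself: `|φ(g) - φ₀(g₀)| ≤ ε` and `φ(g₀ ∘ ePr) = φ₀(g₀)`. `res`, `lift`, `inj`: FBI
(an `InvSt` is determined by its `φ`). Aperiodicity of `x₀`: FAP. -/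
def DXD_stmt : Prop := ∀ (X₀ Y : Type) [TopologicalSpace X₀] [TopologicalSpace Y] [CompactSpace X₀] [T2Space X₀] [Infinite X₀] [CompactSpace Y] [T2Space Y] [Nonempty Y]
  (α₀ : X₀ ≃ₜ X₀) (x₀ : X₀) (f : X₀ → Y) [CompactSpace (ESp α₀ x₀ f)], ContinuousOn f {x₀}ᶜ → IsMinimal α₀ →
  ExtData α₀ (eHom α₀ x₀ f) (ePr α₀ x₀ f) (fun k => (eRes α₀ x₀ f k).toAlgHom) (fun k => (eLif α₀ x₀ f k).toAlgHom)

/-- ROW pvd:DXA (short; from FMZ, FMI, FEA, DXD). Existence of the extension, `Y` path connected: `X = ESp`. -/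
def DXA_stmt : Prop := ∀ (X₀ Y : Type) [TopologicalSpace X₀] [TopologicalSpace Y] [CompactSpace X₀] [CompactSpace Y]
  [TopologicalSpace.MetrizableSpace X₀] [TopologicalSpace.MetrizableSpace Y] [Infinite X₀] [PathConnectedSpace Y] (α₀ : X₀ ≃ₜ X₀), IsMinimal α₀ →
  ∃ (X : Type) (_ : TopologicalSpace X) (_ : CompactSpace X) (_ : TopologicalSpace.MetrizableSpace X) (_ : Infinite X) (α : X ≃ₜ X) (π : C(X, X₀))
    (e : ℤ → C(X, ℂ) →ₐ[ℂ] C(Y, ℂ)) (r : ℤ → C(Y, ℂ) →ₐ[ℂ] C(X, ℂ)), IsMinimal α ∧ ExtData α₀ α π e r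

/-- ROW pvd:DXB (short; from FMZ, FMI, FEB, FSP, DXD). Existence of the extension, `X₀` totally disconnected, with the small boundary property. -/
def DXB_stmt : Prop := ∀ (X₀ Y : Type) [TopologicalSpace X₀] [TopologicalSpace Y] [CompactSpace X₀] [CompactSpace Y]
  [TopologicalSpace.MetrizableSpace X₀] [TopologicalSpace.MetrizableSpace Y] [Infinite X₀] [TotallyDisconnectedSpace X₀] [Nonempty Y] (α₀ : X₀ ≃ₜ X₀), IsMinimal α₀ →
  ∃ (X : Type) (_ : TopologicalSpace X) (_ : CompactSpace X) (_ : TopologicalSpace.MetrizableSpace X) (_ : Infinite X) (α : X ≃ₜ X) (π : C(X, X₀))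
    (e : ℤ → C(X, ℂ) →ₐ[ℂ] C(Y, ℂ)) (r : ℤ → C(Y, ℂ) →ₐ[ℂ] C(X, ℂ)), IsMinimal α ∧ ExtData α₀ α π e r ∧ SmallBdry α

/-- ROW pvd:DKA (short-medium). `φ t` = the lift of `ψ t`. Injective: `φ t` determines `(ψ t).φ`. Onto: `res`, `inj`. The function `t ↦ (φ t)(g)` is a uniform limit of the functions `t ↦ (φ t)(g₀ ∘ π) = (ψ t)(g₀)` (`apx`), which are continuous and affine. -/
def DKA_stmt : Prop := ∀ (X₀ Y X : Type) [TopologicalSpace X₀] [TopologicalSpace Y] [TopologicalSpace X] [CompactSpace X₀]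
  [CompactSpace Y] [CompactSpace X] (α₀ : X₀ ≃ₜ X₀) (α : X ≃ₜ X) (π : C(X, X₀)) (e : ℤ → C(X, ℂ) →ₐ[ℂ] C(Y, ℂ)) (r : ℤ → C(Y, ℂ) →ₐ[ℂ] C(X, ℂ)), ExtData α₀ α π e r →
  ∀ (E : Type) [AddCommGroup E] [Module ℝ E] [TopologicalSpace E] (K : Set E) (ψ : K → InvSt α₀), Function.Bijective ψ →
  (∀ g : C(X₀, ℝ), ∃ a : C(K, ℝ), IsAff a ∧ ∀ t, a t = (ψ t).φ g) →
  ∃ φ : K → InvSt α, Function.Bijective φ ∧ (∀ t (k : C(X₀, ℝ)), (φ t).φ (k.comp π) = (ψ t).φ k) ∧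
    ∀ g : C(X, ℝ), ∃ a : C(K, ℝ), IsAff a ∧ ∀ t, a t = (φ t).φ g

/-- ROW pvd:DTB (medium; from JST, JUN, JTR, JCX). Restriction along `Φ` is a tracial state. Lift: `φ₀` of `t₀` (JST), `φ` (`lift`), `t a = cx (c 0 a)` (JTR); `t(Φ a) = φ.cx ((c₀ 0 a) ∘ π) = φ₀.cx (c₀ 0 a) = t₀ a` (JUN). Approximation: `g₁`, `g₂` for the real and imaginary parts of `c 0 a` with `ε/2` (`apx`),
`a₀ = ι₀(rc g₁ + i rc g₂)`; `t a = φ.cx (c 0 a)` for the `φ` of `t` (JST, JUN). The uniqueness follows from the approximation. -/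
def DTB_stmt : Prop := ∀ (X₀ Y X : Type) [TopologicalSpace X₀] [TopologicalSpace Y] [TopologicalSpace X] [CompactSpace X₀]
  [CompactSpace Y] [CompactSpace X] [T2Space X₀] [T2Space X] [Infinite X₀] [Infinite X] (α₀ : X₀ ≃ₜ X₀) (α : X ≃ₜ X) (π : C(X, X₀)) (e : ℤ → C(X, ℂ) →ₐ[ℂ] C(Y, ℂ)) (r : ℤ → C(Y, ℂ) →ₐ[ℂ] C(X, ℂ)),
  ExtData α₀ α π e r → IsMinimal α₀ → IsMinimal α → ∀ (A A₀ : Type) [CStarAlgebra A] [CStarAlgebra A₀]
  (ι : C(X, ℂ) →⋆ₐ[ℂ] A) (u : unitary A) (c : ℤ → A →ₗ[ℂ] C(X, ℂ)) (ι₀ : C(X₀, ℂ) →⋆ₐ[ℂ] A₀) (u₀ : unitary A₀) (c₀ : ℤ → A₀ →ₗ[ℂ] C(X₀, ℂ)),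
  Cov α ι u c → Cov α₀ ι₀ u₀ c₀ → ∀ Φ : A₀ →⋆ₐ[ℂ] A, (∀ f, Φ (ι₀ f) = ι (f.comp π)) → (∀ n x, c n (Φ x) = (c₀ n x).comp π) →
  (∀ t : TracialState A, ∃ t₀ : TracialState A₀, ∀ a, t₀.τ a = t.τ (Φ a)) ∧
  (∀ t₀ : TracialState A₀, ∃ t : TracialState A, ∀ a, t.τ (Φ a) = t₀.τ a) ∧
  (∀ t t' : TracialState A, (∀ a, t.τ (Φ a) = t'.τ (Φ a)) → t = t') ∧
  ∀ (a : A) (ε : ℝ), 0 < ε → ∃ a₀ : A₀, ∀ t : TracialState A, ‖t.τ a - t.τ (Φ a₀)‖ ≤ ε

/-! ## L. Existence of the crossed product -/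

/-- ROW pvd:LEV (short-medium). `Finsupp.sum_add_index'`, `sum_smul_index'`, `sum_single_index`. The covariance gives `v j(f) = j(f ∘ α⁻¹) v`, induction on `n` in both directions. The last clause: the span of the monomials is the set of finite sums (`Submodule.span_induction`). -/
def LEV_stmt : Prop := ∀ (X : Type) [TopologicalSpace X] [CompactSpace X] (α : X ≃ₜ X) (B : Type) [CStarAlgebra B] (p : CovPair α B),
  (∀ F G, p.ev (F + G) = p.ev F + p.ev G) ∧ (∀ (z : ℂ) F, p.ev (z • F) = z • p.ev F) ∧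
  (∀ n f, p.ev (Finsupp.single n f) = p.j f * up p.v n) ∧
  (∀ n f, up p.v n * p.j f = p.j (sh α (-n) f) * up p.v n) ∧
  (∀ f g n m, p.j f * up p.v n * (p.j g * up p.v m) = p.j (f * sh α (-n) g) * up p.v (n + m)) ∧
  (∀ f n, star (p.j f * up p.v n) = p.j (sh α n (star f)) * up p.v (-n)) ∧
  ∀ a, a ∈ (Submodule.span ℂ {a : B | ∃ (f : C(X, ℂ)) (n : ℤ), a = p.j f * ((p.v ^ n : unitary B) : B)} : Submodule ℂ B) ↔ ∃ F, a = p.ev F

/-- ROW pvd:LFM (short-medium). `I` = the set of the functions `N : (ℤ →₀ C(X, ℂ)) → ℝ` of the form `N(F) = ‖p.ev F‖`, `p` a covariant pair in a nontrivial C*-algebra `B : Type` (a subtype of `(ℤ →₀ C(X, ℂ)) → ℝ`, so `I : Type`); choose `B`, its structure, and `p` for each of them (`Classical.choose`). -/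
def LFM_stmt : Prop := ∀ (X : Type) [TopologicalSpace X] [CompactSpace X] (α : X ≃ₜ X),
  ∃ (I : Type) (B : I → Type) (_ : ∀ i, CStarAlgebra (B i)) (_ : ∀ i, Nontrivial (B i)) (p : ∀ i, CovPair α (B i)),
    ∀ (B' : Type) [CStarAlgebra B'] [Nontrivial B'] (q : CovPair α B'), ∃ i, ∀ F, ‖(p i).ev F‖ = ‖q.ev F‖

/-- ROW pvd:LPX (medium). `P = lp B ∞`, a C*-algebra (Mathlib/Analysis/CStarAlgebra/lpSpace.lean; `letI : CStarAlgebra (lp B ∞) := { }` works), `j f = (p_i.j f)_i` (bounded: star homomorphisms are contractive), `v = (p_i.v)_i` (bounded: unitaries have norm `≤ 1`). The `i`-th coordinate of `q.ev F` is `(p i).ev F`, and `‖x i‖ ≤ ‖x‖` (`lp.norm_apply_le_norm`). -/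
def LPX_stmt : Prop := ∀ (X : Type) [TopologicalSpace X] [CompactSpace X] (α : X ≃ₜ X) (I : Type) (B : I → Type) [∀ i, CStarAlgebra (B i)] [∀ i, Nontrivial (B i)]
  (p : ∀ i, CovPair α (B i)), ∃ (P : Type) (_ : CStarAlgebra P) (q : CovPair α P), ∀ i F, ‖(p i).ev F‖ ≤ ‖q.ev F‖

/-- ROW pvd:LSB (medium; from LEV). The finite sums `q.ev F` form a unital star subalgebra `S` of `P` (LEV: products and stars of monomials are monomials, `1 = j(1) v^0`); `A` = its closure (`StarSubalgebra.topologicalClosure`, a C*-algebra: `StarSubalgebra.cstarAlgebra`), `q'` = `q` with values in `A`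
(`StarAlgHom.codRestrict`); `A → P` is isometric and `S` is dense in `A`. -/
def LSB_stmt : Prop := ∀ (X : Type) [TopologicalSpace X] [CompactSpace X] (α : X ≃ₜ X) (P : Type) [CStarAlgebra P] (q : CovPair α P),
  ∃ (A : Type) (_ : CStarAlgebra A) (q' : CovPair α A), (∀ F, ‖q'.ev F‖ = ‖q.ev F‖) ∧
    Dense ((Submodule.span ℂ {a : A | ∃ (f : C(X, ℂ)) (n : ℤ), a = q'.j f * ((q'.v ^ n : unitary A) : A)} : Submodule ℂ A) : Set A)

/-- ROW pvd:LEX (short-medium). `S x ↦ T x` is well defined and contractive on the range of `S`; extend by density (`LinearMap.extendOfNorm`, Mathlib/Analysis/Normed/Operator/Extend.lean; or `ContinuousLinearMap.extend`). -/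
def LEX_stmt : Prop := ∀ (V A B : Type) [AddCommGroup V] [Module ℂ V] [NormedAddCommGroup A] [NormedSpace ℂ A] [NormedAddCommGroup B] [NormedSpace ℂ B]
  [CompleteSpace B] (S : V →ₗ[ℂ] A) (T : V →ₗ[ℂ] B), DenseRange S → (∀ x, ‖T x‖ ≤ ‖S x‖) → ∃ Φ : A →L[ℂ] B, ∀ x, Φ (S x) = T x

/-- ROW pvd:LUN (medium; from LEV, LEX). For a covariant pair `p = (j, v)` in `B` LEX with `S = q.ev`, `T = p.ev` (linear by LEV, dense range) gives `Φ : A → B` linear and continuous with `Φ(q.j f u^n) = j(f) v^n`. `Φ(ab) = Φ(a)Φ(b)` and `Φ(star a) = star Φ(a)` for monomials (LEV), so on their span, so everywhere (density, continuity). -/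
def LUN_stmt : Prop := ∀ (X : Type) [TopologicalSpace X] [CompactSpace X] (α : X ≃ₜ X) (A : Type) [CStarAlgebra A] (q : CovPair α A),
  Dense ((Submodule.span ℂ {a : A | ∃ (f : C(X, ℂ)) (n : ℤ), a = q.j f * ((q.v ^ n : unitary A) : A)} : Submodule ℂ A) : Set A) →
  (∀ (B : Type) [CStarAlgebra B] (p : CovPair α B) F, ‖p.ev F‖ ≤ ‖q.ev F‖) → IsCrossedProduct α q.j q.v

/-- ROW pvd:LCP (short; from LFM, LPX, LSB, LUN). The hypothesis of LUN: if `B` is trivial, `‖p.ev F‖ = 0`; otherwise `‖p.ev F‖ = ‖(p i).ev F‖ ≤ ‖q.ev F‖ = ‖q'.ev F‖`. -/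
def LCP_stmt : Prop := ∀ (X : Type) [TopologicalSpace X] [CompactSpace X] (α : X ≃ₜ X),
  ∃ (A : Type) (_ : CStarAlgebra A) (ι : C(X, ℂ) →⋆ₐ[ℂ] A) (u : unitary A), IsCrossedProduct α ι u

end Pool.Agent.PV
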