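import Pool.Agent.helper53.PV.DefsF

/-!
# Project pv (MP_376aaf_an), block F: the minimal extension `X → X₀` with a prescribed fibre over one orbit. Rows `pvf:*`

RULES. One file per row: `Pool/Agent/<seat>/PV/XXX.lean`, `import Pool.Agent.helper53.PV.SpecF`, `namespace Pool.Agent.PV`,
`open Pool.Agent.CZ`, `open Topology Filter MeasureTheory` as you need, auxiliary lemmas prefixed `XXX_`. The exact theorem line is in the lock
note (other rows enter only as hypotheses, no row waits for another). No straight double quotes, no `convert` / `congr!`, no `native_decide`.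
The proof of every row is in its docstring. Never change this file; if a statement is wrong tell helper53 at once.

Notation: `X = ESp α₀ x₀ f = {(x, (y_k)_(k ∈ ℤ)) : for all k, α₀^k x = x₀ or y_k = f(α₀^k x)}`, `eHom` the homeomorphism `(x, y) ↦ (α₀ x, (y_(k+1)))`, `ePr` the projection to `X₀`,
`eEv k` the coordinate `y_k`, `eIn k : Y → X` the fibre over `α₀^(-k) x₀`, `eSec x = (x, (f(α₀^k x)))` (not continuous). `zpow_zpow_apply`, `zpow_succ_apply` in DefsF.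
-/

set_option autoImplicit false

open scoped Topology
open MeasureTheory Filter

namespace Pool.Agent.PV

open Pool.Agent.CZ

/-! ## The base -/

/-- ROW pvf:FAP (short). If `α^n x = x`, `n ≠ 0`, the orbit of `x` is `{α^i x : 0 ≤ i < |n|}` (`k = q |n| + r`), finite, so closed; it is dense, so `X` would be finite. -/
def FAP_stmt : Prop := ∀ (X : Type) [TopologicalSpace X] [T1Space X] [Infinite X] (α : X ≃ₜ X), IsMinimal α →
  ∀ (x : X) (n : ℤ), n ≠ 0 → (α ^ n) x ≠ x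

/-- ROW pvf:FOF (short-medium). No point is isolated: if `{y}` is open then every orbit contains `y`, so `X` is the orbit of `y`, and all its points `α^n y` are open (`α^n` is a homeomorphism), so `X` is discrete and compact, finite.
So the sets `{α^n x}ᶜ` are open and dense; `X` is a Baire space (compact Hausdorff), so the countable intersection `⋂_n {α^n x}ᶜ` is dense (`dense_iInter_of_isOpen`) and meets `U`. -/
def FOF_stmt : Prop := ∀ (X : Type) [TopologicalSpace X] [CompactSpace X] [T2Space X] [Infinite X] (α : X ≃ₜ X), IsMinimal α →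
  ∀ (x : X) (U : Set X), IsOpen U → U.Nonempty → ∃ y ∈ U, ∀ n : ℤ, (α ^ n) x ≠ y

/-! ## The extension -/

/-- ROW pvf:FCL (short-medium). The complement is the union over `k` of the sets `{p ∈ W_k : p.2 k ≠ f(α₀^k p.1)}`, `W_k = {p : α₀^k p.1 ≠ x₀}` open (T1). On `W_k` the functions `p ↦ p.2 k` and `p ↦ f(α₀^k p.1)` are continuous, `Y` is Hausdorff, so these sets are open. -/
def FCL_stmt : Prop := ∀ (X₀ Y : Type) [TopologicalSpace X₀] [TopologicalSpace Y] [T1Space X₀] [T2Space Y] (α₀ : X₀ ≃ₜ X₀) (x₀ : X₀) (f : X₀ → Y),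
  ContinuousOn f {x₀}ᶜ → IsClosed (ESet α₀ x₀ f)

/-- ROW pvf:FMZ (short; from FCL). Closed subset of the compact space `X₀ × (ℤ → Y)`. Compact metrizable spaces are second countable and T3, this passes to countable products and subspaces, and second countable T3 spaces are metrizable (`TopologicalSpace.metrizableSpace_of_t3_secondCountable`). `ePr` is onto (`eSec`). -/
def FMZ_stmt : Prop := ∀ (X₀ Y : Type) [TopologicalSpace X₀] [TopologicalSpace Y] [CompactSpace X₀] [CompactSpace Y]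
  [TopologicalSpace.MetrizableSpace X₀] [TopologicalSpace.MetrizableSpace Y] (α₀ : X₀ ≃ₜ X₀) (x₀ : X₀) (f : X₀ → Y), ContinuousOn f {x₀}ᶜ →
  CompactSpace (ESp α₀ x₀ f) ∧ TopologicalSpace.MetrizableSpace (ESp α₀ x₀ f) ∧ (Infinite X₀ → Infinite (ESp α₀ x₀ f))

/-- ROW pvf:FID (short). Everything except the last clause is `rfl` or `zpow_zpow_apply`, `zpow_succ_apply`; the last clause by induction on `n` in both directions (`zpow_add_one`, `zpow_sub_one`). -/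
def FID_stmt : Prop := ∀ (X₀ Y : Type) [TopologicalSpace X₀] [TopologicalSpace Y] (α₀ : X₀ ≃ₜ X₀) (x₀ : X₀) (f : X₀ → Y),
  (∀ x, ePr α₀ x₀ f (eSec α₀ x₀ f x) = x) ∧
  (∀ p, ePr α₀ x₀ f (eHom α₀ x₀ f p) = α₀ (ePr α₀ x₀ f p)) ∧
  (∀ k p, eEv α₀ x₀ f k (eHom α₀ x₀ f p) = eEv α₀ x₀ f (k + 1) p) ∧
  (∀ x, eSec α₀ x₀ f (α₀ x) = eHom α₀ x₀ f (eSec α₀ x₀ f x)) ∧
  (∀ k y, ePr α₀ x₀ f (eIn α₀ x₀ f k y) = (α₀ ^ (-k)) x₀) ∧
  (∀ k y, eEv α₀ x₀ f k (eIn α₀ x₀ f k y) = y) ∧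
  (∀ i k y, i ≠ k → eEv α₀ x₀ f i (eIn α₀ x₀ f k y) = f ((α₀ ^ (i - k)) x₀)) ∧
  ∀ (n : ℤ) p, ePr α₀ x₀ f ((eHom α₀ x₀ f ^ n) p) = (α₀ ^ n) (ePr α₀ x₀ f p) ∧
    ∀ k, eEv α₀ x₀ f k ((eHom α₀ x₀ f ^ n) p) = eEv α₀ x₀ f (k + n) p

/-- ROW pvf:FFB (short). The fibres of `ePr`. First clause: all `y_k` are given by the condition. Second: `x = α₀^(-k) x₀`; for `i ≠ k` `α₀^i x = α₀^(i-k) x₀ ≠ x₀`, so `y_i = f(α₀^(i-k) x₀)`. -/
def FFB_stmt : Prop := ∀ (X₀ Y : Type) [TopologicalSpace X₀] [TopologicalSpace Y] (α₀ : X₀ ≃ₜ X₀) (x₀ : X₀) (f : X₀ → Y),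
  (∀ p, (∀ k : ℤ, (α₀ ^ k) (ePr α₀ x₀ f p) ≠ x₀) → p = eSec α₀ x₀ f (ePr α₀ x₀ f p)) ∧
  ((∀ n : ℤ, n ≠ 0 → (α₀ ^ n) x₀ ≠ x₀) → ∀ (p : ESp α₀ x₀ f) (k : ℤ), (α₀ ^ k) (ePr α₀ x₀ f p) = x₀ → p = eIn α₀ x₀ f k (eEv α₀ x₀ f k p))

/-- ROW pvf:FDN (medium; from FID, FFB). The points `eSec x`, `x` off the orbit of `x₀`, are dense. If `ePr p` is off the orbit then `p = eSec (ePr p)` (`α₀^k (ePr p) = x₀` would give `ePr p = α₀^(-k) x₀`). Otherwise `p = eIn k y`. `W` contains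
all points of `X` with first coordinate in `U ∈ 𝓝 (ePr p)` and `y_i ∈ W_i` for `i` in a finite set `S ∋ k`, `W_i ∈ 𝓝 (p_i)`. Look for `x = α₀^(-k) z`. The `z` with `α₀^(-k) z ∈ U` and `f(α₀^(i-k) z) ∈ W_i` for all `i ∈ S`, `i ≠ k`, form a neighbourhood of `x₀` (`α₀^(i-k) x₀ ≠ x₀`, `f` is continuous there,
`p_i = f(α₀^(i-k) x₀)`); by `EData.dense` it contains a `z` off the orbit with `f z ∈ W_k`. Then `x = α₀^(-k) z` is off the orbit and `eSec x ∈ W`. -/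
def FDN_stmt : Prop := ∀ (X₀ Y : Type) [TopologicalSpace X₀] [TopologicalSpace Y] [T1Space X₀] (α₀ : X₀ ≃ₜ X₀) (x₀ : X₀) (f : X₀ → Y),
  EData α₀ x₀ f → (∀ n : ℤ, n ≠ 0 → (α₀ ^ n) x₀ ≠ x₀) → ∀ (p : ESp α₀ x₀ f), ∀ W ∈ 𝓝 p,
  ∃ x : X₀, (∀ n : ℤ, (α₀ ^ n) x₀ ≠ x) ∧ eSec α₀ x₀ f x ∈ W

/-- ROW pvf:FMI (short-medium; from FAP, FCL, FID, FFB, FDN). `X` is compact (FCL). Fix `p`; `C` = closure of the orbit of `p`. `ePr(C)` is compact, so closed, and contains the orbit of `ePr p` (FID), so it is `X₀`. For `x` off the orbit of `x₀` there is `q ∈ C` with `ePr q = x`, and `q = eSec x` (FFB).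
These points are dense (FDN), `C` is closed, so `C = X`. -/
def FMI_stmt : Prop := ∀ (X₀ Y : Type) [TopologicalSpace X₀] [TopologicalSpace Y] [CompactSpace X₀] [T2Space X₀] [Infinite X₀] [CompactSpace Y] [T2Space Y]
  (α₀ : X₀ ≃ₜ X₀) (x₀ : X₀) (f : X₀ → Y), EData α₀ x₀ f → IsMinimal α₀ → IsMinimal (eHom α₀ x₀ f)

/-! ## Existence of `f` -/

/-- ROW pvf:FPA (medium). Paths `p_j` from `y_j` to `y_(j+1)` (`PathConnectedSpace.somePath`), `Path.extend` (constant outside `[0,1]`). `γ_0 = y_0`, `γ_(N+1)(t) = γ_N(t)` for `t ≤ N`, `= p_N(t - N)` for `t ≥ N` (`Continuous.if_le`), `γ_(N+1)(j) = y_j` for `j ≤ N + 1`.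
`γ(t) = γ_M(t)` for all `M ≥ t` (the sequence is stationary on `(-∞, M]`), so `γ` is locally equal to some `γ_M`, continuous. Or directly `γ(t) = p_⌊t⌋(t - ⌊t⌋)` with a locally finite closed cover. -/
def FPA_stmt : Prop := ∀ (Y : Type) [TopologicalSpace Y] [PathConnectedSpace Y] (y : ℕ → Y), ∃ γ : C(ℝ, Y), ∀ j : ℕ, γ (j : ℝ) = y j

/-- ROW pvf:FSQ (short-medium; from FOF). Metric `d`; choose `x_(j+1)` off the orbit in the ball around `x₀` of radius `min (d(x_j, x₀)) (1/(j+2))` (FOF, the ball is open and not empty); the distances are positive (`n = 0`) and strictly decreasing, so `x` is injective. -/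
def FSQ_stmt : Prop := ∀ (X : Type) [TopologicalSpace X] [CompactSpace X] [TopologicalSpace.MetrizableSpace X] [Infinite X] (α : X ≃ₜ X), IsMinimal α →
  ∀ x₀ : X, ∃ x : ℕ → X, Function.Injective x ∧ Tendsto x atTop (𝓝 x₀) ∧ ∀ (j : ℕ) (n : ℤ), (α ^ n) x₀ ≠ x j

/-- ROW pvf:FDS (short). `Y` is separable: dense sequence `d`; `y_j = d_m` with `m = (Nat.unpair j).1`; for `d_m ∈ V` take `j = Nat.pair m N ≥ N`. -/
def FDS_stmt : Prop := ∀ (Y : Type) [TopologicalSpace Y] [CompactSpace Y] [TopologicalSpace.MetrizableSpace Y] [Nonempty Y],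
  ∃ y : ℕ → Y, ∀ z : Y, ∀ V ∈ 𝓝 z, ∀ N : ℕ, ∃ j : ℕ, N ≤ j ∧ y j ∈ V

/-- ROW pvf:FTZ (medium). The subspace `Z = {z // z ≠ x₀}` is metrizable, so normal. `S = {x_j}` is closed in `Z` and discrete: `x_j → x₀ ≠ z`, so `z` has a neighbourhood with only finitely many of the `x_j`, so one with at most the point `z` of `S`. The function `x_j ↦ j` on `S` is continuous;
extend it to `Z` by Tietze (`ContinuousMap.exists_restrict_eq`, `IsClosed.exists_extension...`; `ℝ` is a Tietze extension space). -/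
def FTZ_stmt : Prop := ∀ (X : Type) [TopologicalSpace X] [TopologicalSpace.MetrizableSpace X] (x₀ : X) (x : ℕ → X), Function.Injective x →
  Tendsto x atTop (𝓝 x₀) → (∀ j, x j ≠ x₀) → ∃ θ : X → ℝ, ContinuousOn θ {x₀}ᶜ ∧ ∀ j : ℕ, θ (x j) = j

/-- ROW pvf:FEA (short-medium; from FPA, FSQ, FDS, FTZ). `f = γ ∘ θ`: `f(x_j) = γ(j) = y_j`. `dense`: `x_j ∈ U` for `j ≥ N`, and some `y_j ∈ V` with `j ≥ N`. -/
def FEA_stmt : Prop := ∀ (X₀ Y : Type) [TopologicalSpace X₀] [TopologicalSpace Y] [CompactSpace X₀] [CompactSpace Y]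
  [TopologicalSpace.MetrizableSpace X₀] [TopologicalSpace.MetrizableSpace Y] [Infinite X₀] [PathConnectedSpace Y] (α₀ : X₀ ≃ₜ X₀), IsMinimal α₀ →
  ∀ x₀ : X₀, ∃ f : X₀ → Y, EData α₀ x₀ f

/-- ROW pvf:FCP (medium). The clopen sets are a basis (`compact_exists_isClopen_in_isOpen`), `𝓝 x₀` has a countable antitone basis `W_j`. Choose recursively `U_(j+1) ⊆ U_j ∩ W_j` clopen, `x₀ ∈ U_(j+1)`, and not containing some point `z ≠ x₀` of `U_j` (inside the open set `U_j ∩ interior W_j ∩ {z}ᶜ`). -/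
def FCP_stmt : Prop := ∀ (X : Type) [TopologicalSpace X] [CompactSpace X] [TopologicalSpace.MetrizableSpace X] [TotallyDisconnectedSpace X] (x₀ : X),
  (∀ U ∈ 𝓝 x₀, ∃ z ∈ U, z ≠ x₀) → ∃ U : ℕ → Set X, U 0 = Set.univ ∧
  (∀ j, IsClopen (U j) ∧ x₀ ∈ U j ∧ U (j + 1) ⊆ U j ∧ (U j \ U (j + 1)).Nonempty) ∧ ∀ W ∈ 𝓝 x₀, ∃ j, U j ⊆ W

/-- ROW pvf:FEB (short-medium; from FOF, FDS, FCP). `x₀` is not isolated (FOF). The sets `U_j \ U_(j+1)` are open, disjoint, and cover `{x₀}ᶜ` (for `x ≠ x₀` some `U_j ⊆ {x}ᶜ`; `j + 1` = the least index with `x ∉ U_(j+1)`, `Nat.find`; `U` is antitone). `f = y_j` on `U_j \ U_(j+1)`, `f x₀ = y_0`. Locally constant, so continuous off `x₀`.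
`dense`: `U_N ⊆ U`, `j ≥ N` with `y_j ∈ V`, a point of the nonempty open set `U_j \ U_(j+1)` off the orbit (FOF). -/
def FEB_stmt : Prop := ∀ (X₀ Y : Type) [TopologicalSpace X₀] [TopologicalSpace Y] [CompactSpace X₀] [CompactSpace Y]
  [TopologicalSpace.MetrizableSpace X₀] [TopologicalSpace.MetrizableSpace Y] [Infinite X₀] [TotallyDisconnectedSpace X₀] [Nonempty Y] (α₀ : X₀ ≃ₜ X₀), IsMinimal α₀ →
  ∀ x₀ : X₀, ∃ f : X₀ → Y, EData α₀ x₀ f ∧ LocC x₀ f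

/-! ## Functions on the extension -/

/-- ROW pvf:FRL (short; from FID). Extensionality. -/
def FRL_stmt : Prop := ∀ (X₀ Y : Type) [TopologicalSpace X₀] [TopologicalSpace Y] (α₀ : X₀ ≃ₜ X₀) (x₀ : X₀) (f : X₀ → Y),
  (∀ k ψ, eRes α₀ x₀ f k (eLif α₀ x₀ f k ψ) = ψ) ∧
  (∀ i k ψ, i ≠ k → eRes α₀ x₀ f i (eLif α₀ x₀ f k ψ) = algebraMap ℂ C(Y, ℂ) (ψ (f ((α₀ ^ (k - i)) x₀)))) ∧
  (∀ k g, eRes α₀ x₀ f k (ePul α₀ x₀ f g) = algebraMap ℂ C(Y, ℂ) (g ((α₀ ^ (-k)) x₀))) ∧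
  (∀ k ψ, (eLif α₀ x₀ f k ψ).comp ((eHom α₀ x₀ f).symm : C(ESp α₀ x₀ f, ESp α₀ x₀ f)) = eLif α₀ x₀ f (k - 1) ψ) ∧
  (∀ g, (ePul α₀ x₀ f g).comp ((eHom α₀ x₀ f).symm : C(ESp α₀ x₀ f, ESp α₀ x₀ f)) = ePul α₀ x₀ f (g.comp (α₀.symm : C(X₀, X₀)))) ∧
  Function.Injective (ePul α₀ x₀ f)

/-- ROW pvf:FDE (short-medium; from FCL, FID, FFB). `g` is constant on the fibres of `ePr`: if `ePr p = ePr q = x` then either `x` is off the orbit (`α₀^k x ≠ x₀` for all `k`) and `p = eSec x = q`, or `α₀^k x = x₀` and `p = eIn k y`, `q = eIn k y'` (FFB). `X` is compact, `X₀` Hausdorff, `ePr` onto, so `ePr` is a quotient map; lift `g`. -/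
def FDE_stmt : Prop := ∀ (X₀ Y : Type) [TopologicalSpace X₀] [TopologicalSpace Y] [CompactSpace X₀] [T2Space X₀] [CompactSpace Y] [T2Space Y]
  (α₀ : X₀ ≃ₜ X₀) (x₀ : X₀) (f : X₀ → Y), ContinuousOn f {x₀}ᶜ → (∀ n : ℤ, n ≠ 0 → (α₀ ^ n) x₀ ≠ x₀) →
  ∀ (T : Type) [TopologicalSpace T] (g : C(ESp α₀ x₀ f, T)), (∀ (k : ℤ) (y y' : Y), g (eIn α₀ x₀ f k y) = g (eIn α₀ x₀ f k y')) →
  ∃ g₀ : C(X₀, T), ∀ p, g p = g₀ (ePr α₀ x₀ f p)

/-- ROW pvf:FSW (medium; from FCL, FID). The `g'` for which such an `S` exists form a star subalgebra of `C(X, ℂ)` (unions of the finite sets), it contains `ePul g₀` (`S = ∅`) and `eLif k ψ` (`S = {k}`), and it separates the points: if `p ≠ q` and `ePr p ≠ ePr q` use `ePul g₀` (compact Hausdorff spaces have enough functions), otherwise some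
coordinates `y_k ≠ y'_k`, use `eLif k ψ`. Stone-Weierstrass: `ContinuousMap.starSubalgebra_topologicalClosure_eq_top_of_separatesPoints` (`X` is compact by FCL). (The norm of `C(X, ℂ)` needs the instance `CompactSpace X`, so the conclusion is pointwise.) -/
def FSW_stmt : Prop := ∀ (X₀ Y : Type) [TopologicalSpace X₀] [TopologicalSpace Y] [CompactSpace X₀] [T2Space X₀] [CompactSpace Y] [T2Space Y]
  (α₀ : X₀ ≃ₜ X₀) (x₀ : X₀) (f : X₀ → Y), ContinuousOn f {x₀}ᶜ →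
  ∀ (g : C(ESp α₀ x₀ f, ℂ)) (ε : ℝ), 0 < ε → ∃ (S : Finset ℤ) (g' : C(ESp α₀ x₀ f, ℂ)),
    (∀ k, k ∉ S → ∀ y y' : Y, g' (eIn α₀ x₀ f k y) = g' (eIn α₀ x₀ f k y')) ∧ ∀ p, ‖g p - g' p‖ ≤ ε

/-! ## Invariant states and measures -/

/-- ROW pvf:FNU (medium). `N ≥ 1/ε`. The points `α^i x`, `0 ≤ i < N`, are distinct; disjoint open `O_i ∋ α^i x`; `U = ⋂_(i<N) α^(-i)(O_i)` is an open neighbourhood of `x` and the sets `α^i(U)` (so also the `α^(-i)(U)`, `0 ≤ i < N`) are pairwise disjoint. Urysohn: `h ∈ C(X)`, `0 ≤ h ≤ 1`, `h = 1` near `x` (on a closed neighbourhood inside `U`), `h = 0` off `U`.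
`∑_(i<N) h ∘ α^i ≤ 1` (the `i`-th summand vanishes off `α^(-i)(U)`), so `N φ(h) ≤ φ(1) = 1` by positivity and invariance. -/
def FNU_stmt : Prop := ∀ (X : Type) [TopologicalSpace X] [CompactSpace X] [T2Space X] (α : X ≃ₜ X) (x : X), (∀ n : ℤ, n ≠ 0 → (α ^ n) x ≠ x) →
  ∀ ε : ℝ, 0 < ε → ∃ h : C(X, ℝ), (∀ z, 0 ≤ h z ∧ h z ≤ 1) ∧ (∀ᶠ z in 𝓝 x, h z = 1) ∧ ∀ φ : InvSt α, φ.φ h ≤ ε

/-- ROW pvf:FAX (medium; from FNU, FSW, FDE, FID). Uniform approximation. FSW for `g` as a complex function, with `ε/2`; take the real part `g'` (`|g - g'| ≤ ε/2`), `S`; `|g'| ≤ M`, `M ≥ 0` (`X` is compact, or `|g'| ≤ |g| + ε`). `h` from FNU for `α₀`, `x₀`, `ε' = ε/(2(M+1)(#S+1))`. `H(x) = min 1 (∑_(k∈S) h(α₀^k x))`, so `0 ≤ H ≤ 1` and `H(α₀^(-k) x₀) = 1` for `k ∈ S`.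
`(1 - H ∘ ePr) g'` satisfies the hypothesis of FDE (for `k ∈ S` it vanishes on the fibre over `α₀^(-k) x₀`), so it is `g₀ ∘ ePr`. For a positive unital `φ` extending `φ₀`: `|φ(g) - φ₀(g₀)| ≤ |φ(g - g')| + |φ(g' · H ∘ ePr)| ≤ ε/2 + M φ₀(H) ≤ ε/2 + M #S ε' ≤ ε` (`φ₀(h ∘ α₀^k) = φ₀(h)`, induction on `k`). -/
def FAX_stmt : Prop := ∀ (X₀ Y : Type) [TopologicalSpace X₀] [TopologicalSpace Y] [CompactSpace X₀] [T2Space X₀] [CompactSpace Y] [T2Space Y]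
  (α₀ : X₀ ≃ₜ X₀) (x₀ : X₀) (f : X₀ → Y), ContinuousOn f {x₀}ᶜ → (∀ n : ℤ, n ≠ 0 → (α₀ ^ n) x₀ ≠ x₀) →
  ∀ (g : C(ESp α₀ x₀ f, ℝ)) (ε : ℝ), 0 < ε → ∃ g₀ : C(X₀, ℝ), ∀ (φ : C(ESp α₀ x₀ f, ℝ) →ₗ[ℝ] ℝ) (φ₀ : InvSt α₀),
    (∀ k : C(ESp α₀ x₀ f, ℝ), (∀ p, 0 ≤ k p) → 0 ≤ φ k) → (∀ k : C(X₀, ℝ), φ (k.comp (ePr α₀ x₀ f)) = φ₀.φ k) → |φ g - φ₀.φ g₀| ≤ ε

/-- ROW pvf:FEX (medium). `riesz_extension` for the convex cone of the nonnegative functions in `C(X, ℝ)`, the subspace `{k ∘ π}` (the range of the injective linear map `k ↦ k ∘ π`) and the functional `k ∘ π ↦ φ₀(k)` (well defined as `π` is onto; nonnegative: `k ∘ π ≥ 0` implies `k ≥ 0`); for every `g` a constant function `c` (in the subspace) has `c + g ≥ 0` (compactness). -/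
def FEX_stmt : Prop := ∀ (X X₀ : Type) [TopologicalSpace X] [TopologicalSpace X₀] [CompactSpace X] (π : C(X, X₀)), Function.Surjective π →
  ∀ φ₀ : C(X₀, ℝ) →ₗ[ℝ] ℝ, (∀ k : C(X₀, ℝ), (∀ x, 0 ≤ k x) → 0 ≤ φ₀ k) → ∃ φ : C(X, ℝ) →ₗ[ℝ] ℝ,
    (∀ k : C(X, ℝ), (∀ x, 0 ≤ k x) → 0 ≤ φ k) ∧ ∀ k : C(X₀, ℝ), φ (k.comp π) = φ₀ k

/-- ROW pvf:FBI (short-medium; from FCL, FID, FAX, FEX). `k ↦ φ(k ∘ ePr)` is an invariant state of `α₀` (`k ∘ α₀ ∘ ePr = k ∘ ePr ∘ eHom`). Uniqueness: FAX with `ε → 0`. Existence: FEX gives `φ`, `φ 1 = φ₀ 1 = 1`; `g ↦ φ(g ∘ eHom)` is another positive extension of `φ₀` (`φ₀` is invariant), so it is `φ` by FAX. -/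
def FBI_stmt : Prop := ∀ (X₀ Y : Type) [TopologicalSpace X₀] [TopologicalSpace Y] [CompactSpace X₀] [T2Space X₀] [CompactSpace Y] [T2Space Y]
  (α₀ : X₀ ≃ₜ X₀) (x₀ : X₀) (f : X₀ → Y), ContinuousOn f {x₀}ᶜ → (∀ n : ℤ, n ≠ 0 → (α₀ ^ n) x₀ ≠ x₀) →
  (∀ φ ψ : InvSt (eHom α₀ x₀ f), (∀ k : C(X₀, ℝ), φ.φ (k.comp (ePr α₀ x₀ f)) = ψ.φ (k.comp (ePr α₀ x₀ f))) → φ.φ = ψ.φ) ∧
  (∀ φ : InvSt (eHom α₀ x₀ f), ∃ φ₀ : InvSt α₀, ∀ k : C(X₀, ℝ), φ.φ (k.comp (ePr α₀ x₀ f)) = φ₀.φ k) ∧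
  ∀ φ₀ : InvSt α₀, ∃ φ : InvSt (eHom α₀ x₀ f), ∀ k : C(X₀, ℝ), φ.φ (k.comp (ePr α₀ x₀ f)) = φ₀.φ k

/-- ROW pvf:FRM (medium). Riesz-Markov-Kakutani: on a compact space `C(X, ℝ)` is `C_c(X, ℝ)`; `RealRMK.rieszMeasure`, `RealRMK.integral_rieszMeasure` (Mathlib/MeasureTheory/Integral/RieszMarkovKakutani/Real.lean); total mass 1 (`g = 1`). Invariance and uniqueness: finite Borel measures on a metrizable space are determined by the integrals of the bounded continuous functions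
(`MeasureTheory.ext_of_forall_integral_eq_of_IsFiniteMeasure`). Second clause: the integral. -/
def FRM_stmt : Prop := ∀ (X : Type) [TopologicalSpace X] [CompactSpace X] [TopologicalSpace.MetrizableSpace X] [MeasurableSpace X] [BorelSpace X] (α : X ≃ₜ X),
  (∀ φ : InvSt α, ∃ μ : InvMeas α, ∀ g : C(X, ℝ), ∫ x, g x ∂μ.μ = φ.φ g) ∧
  (∀ μ : InvMeas α, ∃ φ : InvSt α, ∀ g : C(X, ℝ), φ.φ g = ∫ x, g x ∂μ.μ) ∧
  ∀ μ ν : InvMeas α, (∀ g : C(X, ℝ), ∫ x, g x ∂μ.μ = ∫ x, g x ∂ν.μ) → μ.μ = ν.μ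

/-- ROW pvf:FNM (short-medium; from FID). The sets `A_n = ePr⁻¹{α₀^n x₀}`, `n ∈ ℤ`, are closed, pairwise disjoint, `eHom⁻¹(A_(n+1)) = A_n`, so all have the same measure `c`; `∑ μ(A_n) ≤ 1` forces `c = 0`. -/
def FNM_stmt : Prop := ∀ (X₀ Y : Type) [TopologicalSpace X₀] [TopologicalSpace Y] [T1Space X₀] (α₀ : X₀ ≃ₜ X₀) (x₀ : X₀) (f : X₀ → Y),
  (∀ n : ℤ, n ≠ 0 → (α₀ ^ n) x₀ ≠ x₀) → ∀ [MeasurableSpace (ESp α₀ x₀ f)] [BorelSpace (ESp α₀ x₀ f)] (μ : Measure (ESp α₀ x₀ f)), IsProbabilityMeasure μ →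
  μ.map (eHom α₀ x₀ f) = μ → ∀ k : ℤ, μ (ePr α₀ x₀ f ⁻¹' {(α₀ ^ (-k)) x₀}) = 0

/-- ROW pvf:FSB (medium). `W` contains a set `V = {(x, y) ∈ X : x ∈ U, y_k ∈ W_k for k ∈ S} ∋ p`, `U` clopen in `X₀` (`compact_exists_isClopen_in_isOpen`), `S ⊂ ℤ` finite, `W_k ⊆ Y` open; `V` is open. Let `q = (x, y)` be in the closure of `V` and `α₀^k x ≠ x₀` for all `k ∈ S`. Then `x ∈ U` (clopen), and for `q' = (x', y')` near `q` and `k ∈ S`: `α₀^k x' ≠ x₀`,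
`y'_k = f(α₀^k x') = f(α₀^k x) = y_k` (`f` is locally constant at `α₀^k x`). Some `q' ∈ V` is that near, so `y_k ∈ W_k` for all `k ∈ S`, `q ∈ V`. So the boundary of the open set `V` lies over the points `α₀^(-k) x₀`, `k ∈ S`. -/
def FSB_stmt : Prop := ∀ (X₀ Y : Type) [TopologicalSpace X₀] [TopologicalSpace Y] [CompactSpace X₀] [T2Space X₀] [TotallyDisconnectedSpace X₀]
  (α₀ : X₀ ≃ₜ X₀) (x₀ : X₀) (f : X₀ → Y), LocC x₀ f → ∀ (p : ESp α₀ x₀ f), ∀ W ∈ 𝓝 p, ∃ V : Set (ESp α₀ x₀ f), IsOpen V ∧ p ∈ V ∧ V ⊆ W ∧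
    ∃ S : Finset ℤ, frontier V ⊆ ⋃ k ∈ S, ePr α₀ x₀ f ⁻¹' {(α₀ ^ (-k)) x₀}

/-- ROW pvf:FSP (short; from FAP, FNM, FSB). Finite unions of null sets. -/
def FSP_stmt : Prop := ∀ (X₀ Y : Type) [TopologicalSpace X₀] [TopologicalSpace Y] [CompactSpace X₀] [T2Space X₀] [TotallyDisconnectedSpace X₀] [Infinite X₀]
  (α₀ : X₀ ≃ₜ X₀) (x₀ : X₀) (f : X₀ → Y), IsMinimal α₀ → LocC x₀ f → SmallBdry (eHom α₀ x₀ f)

end Pool.Agent.PV
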